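import Pool.Agent.W300.FT.Stm

set_option autoImplicit false

namespace Pool.Agent.W933.FT

open MeasureTheory ProbabilityTheory Pool.Agent.W300.FT

section basic

variable {Ω : Type} [MeasurableSpace Ω]

theorem meas_ex {ι : Type} [Countable ι] {P : ι → Ω → Prop}
    (h : ∀ i, MeasurableSet {ω | P i ω}) : MeasurableSet {ω | ∃ i, P i ω} := by
  have e : {ω | ∃ i, P i ω} = ⋃ i, {ω | P i ω} := by
    ext ω
    rw [Set.mem_iUnion]
    exact Iff.rfl
  rw [e]
  exact MeasurableSet.iUnion h

theorem meas_all {ι : Sort*} [Countable ι] {P : ι → Ω → Prop}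
    (h : ∀ i, MeasurableSet {ω | P i ω}) : MeasurableSet {ω | ∀ i, P i ω} := by
  have e : {ω | ∀ i, P i ω} = ⋂ i, {ω | P i ω} := by
    ext ω
    rw [Set.mem_iInter]
    exact Iff.rfl
  rw [e]
  exact MeasurableSet.iInter h

theorem meas_and {P Q : Ω → Prop} (hP : MeasurableSet {ω | P ω}) (hQ : MeasurableSet {ω | Q ω}) :
    MeasurableSet {ω | P ω ∧ Q ω} := hP.inter hQ

theorem meas_imp {P Q : Ω → Prop} (hP : MeasurableSet {ω | P ω}) (hQ : MeasurableSet {ω | Q ω}) :
    MeasurableSet {ω | P ω → Q ω} := by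
  have e : {ω | P ω → Q ω} = {ω | P ω}ᶜ ∪ {ω | Q ω} := by
    ext ω
    exact imp_iff_not_or
  rw [e]
  exact hP.compl.union hQ

theorem meas_c (p : Prop) : MeasurableSet {_ω : Ω | p} := MeasurableSet.const p

end basic

section

variable {V : Type} (G : SimpleGraph V)

theorem meas_pt (e : V × K) : MeasurableSet {ω : V × K → Bool | ω e = true} := by
  have h : Measurable (fun ω : V × K → Bool => ω e) := measurable_pi_apply e
  exact h (measurableSet_singleton true)

theorem meas_et [Countable V] (c : ℕ × ℕ) (j : ℕ) (v : V) :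
    MeasurableSet {ω : V × K → Bool | et G ω c j v} := by
  unfold et ExistsUnique
  refine meas_ex fun u => meas_and (meas_and (meas_c _) (meas_pt _)) ?_
  refine meas_all fun u' => meas_imp (meas_and (meas_c _) (meas_pt _)) (meas_c _)

theorem meas_mt [Countable V] (c : ℕ × ℕ) (j : ℕ) (u v : V) :
    MeasurableSet {ω : V × K → Bool | mt G ω c j u v} :=
  meas_and (meas_c _) (meas_and (meas_pt _) (meas_and (meas_pt _)
    (meas_and (meas_et G c j u) (meas_et G c j v))))

theorem meas_Ch [Countable V] (c : ℕ × ℕ) (γ : ℕ → V) :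
    MeasurableSet {ω : V × K → Bool | Ch G ω c γ} := by
  unfold Ch
  exact meas_all fun j => meas_all fun _ => meas_mt G c j _ _

theorem Ch_congr (ω : V × K → Bool) (c : ℕ × ℕ) (γ γ' : ℕ → V)
    (h : ∀ j ≤ c.1 + 2, γ' j = γ j) (hc : Ch G ω c γ) : Ch G ω c γ' := by
  intro j hj
  rw [h j (by omega), h (j + 1) (by omega)]
  exact hc j hj

theorem fm_congr (ω : V × K → Bool) (c : ℕ × ℕ) (i : ℕ) (γ γ' : ℕ → V)
    (h : ∀ j ≤ c.1 + 2, γ' j = γ j) : fm ω c i γ' = fm ω c i γ := by
  unfold fm
  rw [h 0 (by omega), h (c.1 + 2) le_rfl]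
  congr 1
  refine Finset.sum_congr rfl fun j hj => ?_
  rw [Finset.mem_Ioo] at hj
  rw [h j (by omega)]

/-- the finite version of the position bit -/
def fm' (N : ℕ) (δ : Fin (N + 1) → Bool) : ZMod 2 :=
  bt (δ 0) * bt (δ (Fin.last N)) +
    ∑ j ∈ Finset.Ioo 1 N, bt (if h : j < N + 1 then δ ⟨j, h⟩ else false)

theorem meas_fm (c : ℕ × ℕ) (i : ℕ) (γ : ℕ → V) :
    MeasurableSet {ω : V × K → Bool | fm ω c i γ = 1} := by
  have h1 : ∀ ω : V × K → Bool, fm ω c i γ =
      fm' (c.1 + 2) (fun j : Fin (c.1 + 2 + 1) => ω (γ j, (c, (j : ℕ), i))) := by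
    intro ω
    unfold fm fm'
    congr 1
    refine Finset.sum_congr rfl fun j hj => ?_
    rw [Finset.mem_Ioo] at hj
    rw [dif_pos (by omega)]
  simp only [h1]
  have h2 : Measurable (fun ω : V × K → Bool =>
      (fun j : Fin (c.1 + 2 + 1) => ω (γ j, (c, (j : ℕ), i)))) :=
    measurable_pi_lambda _ fun j => measurable_pi_apply _
  have h3 : MeasurableSet {δ : Fin (c.1 + 2 + 1) → Bool | fm' (c.1 + 2) δ = 1} :=
    (Set.toFinite _).measurableSet
  exact h2 h3

/-- extension of a finite sequence -/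
def exq (N : ℕ) (δ : Fin (N + 1) → V) (j : ℕ) : V :=
  if h : j < N + 1 then δ ⟨j, h⟩ else δ (Fin.last N)

/-- quantification over sequences of which only finitely many values matter -/
theorem meas_seq [Countable V] (N : ℕ) (P : (ℕ → V) → (V × K → Bool) → Prop)
    (hP : ∀ γ γ' ω, (∀ j ≤ N, γ' j = γ j) → P γ ω → P γ' ω)
    (hm : ∀ γ, MeasurableSet {ω | P γ ω}) : MeasurableSet {ω | ∃ γ, P γ ω} := by
  have e : {ω | ∃ γ, P γ ω} = {ω | ∃ δ : Fin (N + 1) → V, P (exq N δ) ω} := by
    ext ω
    constructor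
    · rintro ⟨γ, hγ⟩
      refine ⟨fun j => γ j, hP γ _ ω ?_ hγ⟩
      intro j hj
      unfold exq
      rw [dif_pos (by omega)]
    · rintro ⟨δ, hδ⟩
      exact ⟨_, hδ⟩
  rw [e]
  exact meas_ex fun δ => hm _

end

theorem meas : S_MEAS := by
  classical
  intro V G C _
  constructor
  · refine measurable_pi_lambda _ fun v => measurable_pi_lambda _ fun k => ?_
    unfold Psi
    by_cases h0 : k.2.2 = 0
    · simp only [if_pos h0]
      exact measurable_pi_apply _
    · by_cases h1 : k.2.2 = 1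
      · simp only [if_neg h0, if_pos h1]
        refine measurable_to_bool ?_
        have e : (fun ω : V × K → Bool => decide (et G ω k.1 k.2.1 v)) ⁻¹' {true} =
            {ω | et G ω k.1 k.2.1 v} := by
          ext ω
          simp
        rw [e]
        exact meas_et G _ _ _
      · simp only [if_neg h0, if_neg h1]
        refine Measurable.ite ?_ ?_ (measurable_pi_apply _)
        · refine meas_and (meas_c _) ?_
          refine meas_seq (k.1.1 + 2) (fun γ ω => γ 1 = v ∧ Ch G ω k.1 γ) ?_ ?_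
          · rintro γ γ' ω h ⟨h2, h3⟩
            exact ⟨by rw [h 1 (by omega)]; exact h2, Ch_congr G ω k.1 γ γ' h h3⟩
          · intro γ
            exact meas_and (meas_c _) (meas_Ch G _ _)
        · refine measurable_to_bool ?_
          have e : (fun ω : V × K → Bool => decide (∃ γ : ℕ → V, γ 1 = v ∧ Ch G ω k.1 γ ∧
              fm ω k.1 k.2.2 γ = 1)) ⁻¹' {true} =
              {ω | ∃ γ : ℕ → V, γ 1 = v ∧ Ch G ω k.1 γ ∧ fm ω k.1 k.2.2 γ = 1} := by
            ext ω
            simp
          rw [e]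
          refine meas_seq (k.1.1 + 2)
            (fun γ ω => γ 1 = v ∧ Ch G ω k.1 γ ∧ fm ω k.1 k.2.2 γ = 1) ?_ ?_
          · rintro γ γ' ω h ⟨h2, h3, h4⟩
            exact ⟨by rw [h 1 (by omega)]; exact h2, Ch_congr G ω k.1 γ γ' h h3, by
              rw [fm_congr ω k.1 k.2.2 γ γ' h]; exact h4⟩
          · intro γ
            exact meas_and (meas_c _) (meas_and (meas_Ch G _ _) (meas_fm _ _ _))
  · refine measurable_pi_lambda _ fun v => measurable_pi_lambda _ fun k => ?_
    unfold PsiC
    by_cases h0 : k.2.2 = 0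
    · simp only [if_pos h0]
      exact measurable_pi_apply _
    · by_cases h1 : k.2.2 = 1
      · simp only [if_neg h0, if_pos h1]
        refine measurable_to_bool ?_
        have e : (fun ω : V × K → Bool => decide (et G ω k.1 k.2.1 v)) ⁻¹' {true} =
            {ω | et G ω k.1 k.2.1 v} := by
          ext ω
          simp
        rw [e]
        exact meas_et G _ _ _
      · simp only [if_neg h0, if_neg h1]
        refine Measurable.ite ?_ ?_ (measurable_pi_apply _)
        · refine meas_and (meas_c _) ?_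
          refine meas_seq (k.1.1 + 2) (fun γ ω => γ 1 = v ∧ Ch G ω k.1 γ ∧
            ∀ j ∈ Finset.Ioo 0 (k.1.1 + 2), γ j ∈ C) ?_ ?_
          · rintro γ γ' ω h ⟨h2, h3, h4⟩
            refine ⟨by rw [h 1 (by omega)]; exact h2, Ch_congr G ω k.1 γ γ' h h3, ?_⟩
            intro j hj
            have hj' := Finset.mem_Ioo.1 hj
            rw [h j (by omega)]
            exact h4 j hj
          · intro γ
            exact meas_and (meas_c _) (meas_and (meas_Ch G _ _) (meas_c _))
        · refine measurable_to_bool ?_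
          have e : (fun ω : V × K → Bool => decide (∃ γ : ℕ → V, γ 1 = v ∧ Ch G ω k.1 γ ∧
              fm ω k.1 k.2.2 γ = 1)) ⁻¹' {true} =
              {ω | ∃ γ : ℕ → V, γ 1 = v ∧ Ch G ω k.1 γ ∧ fm ω k.1 k.2.2 γ = 1} := by
            ext ω
            simp
          rw [e]
          refine meas_seq (k.1.1 + 2)
            (fun γ ω => γ 1 = v ∧ Ch G ω k.1 γ ∧ fm ω k.1 k.2.2 γ = 1) ?_ ?_
          · rintro γ γ' ω h ⟨h2, h3, h4⟩
            exact ⟨by rw [h 1 (by omega)]; exact h2, Ch_congr G ω k.1 γ γ' h h3, by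
              rw [fm_congr ω k.1 k.2.2 γ γ' h]; exact h4⟩
          · intro γ
            exact meas_and (meas_c _) (meas_and (meas_Ch G _ _) (meas_fm _ _ _))

end Pool.Agent.W933.FT
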